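import Pool.Agent.H47.ST.Targets

/-!
# MP_78620a_co: visible levels with height `h` (row PO)
-/

set_option autoImplicit false

namespace Pool.Agent.H63.STK

open Finset Pool.Agent.H47.ST

theorem vis_max (e h : ℕ) (B : List ℕ) : ∀ k : ℕ,
    vis e (max h k) B = (vis e k B).filter (fun c => h ≤ c) := by
  induction B with
  | nil => intro k; simp [vis]
  | cons r B ih =>
    intro k
    by_cases h1 : max h k ≤ r
    · have hh : h ≤ r := (le_max_left h k).trans h1
      have hk : k ≤ r := (le_max_right h k).trans h1
      have h2 := ih (r + 1)
      rw [max_eq_right (show h ≤ r + 1 by omega)] at h2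
      rw [vis, if_pos h1, vis, if_pos hk, Finset.filter_union, ← h2]
      congr 1
      by_cases h3 : r % 2 = e ∧ r + 1 < top 0 B
      · rw [if_pos h3, Finset.filter_singleton, if_pos hh]
      · rw [if_neg h3, Finset.filter_empty]
    · rw [vis, if_neg h1]
      by_cases hk : k ≤ r
      · have hh : r < h := by
          by_contra hcon
          exact h1 (max_le (not_lt.mp hcon) hk)
        have h2 := ih (r + 1)
        rw [max_eq_left (show r + 1 ≤ h by omega)] at h2
        rw [max_eq_left (show k ≤ h by omega), vis, if_pos hk, Finset.filter_union, ← h2]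
        have h4 : (if r % 2 = e ∧ r + 1 < top 0 B then ({r} : Finset ℕ) else ∅).filter
            (fun c => h ≤ c) = ∅ := by
          by_cases h3 : r % 2 = e ∧ r + 1 < top 0 B
          · rw [if_pos h3, Finset.filter_singleton, if_neg (by omega)]
          · rw [if_neg h3, Finset.filter_empty]
        rw [h4, Finset.empty_union]
      · rw [ih k]
        conv_rhs => rw [vis, if_neg hk]

theorem vis_par (e : ℕ) (B : List ℕ) : ∀ h : ℕ, ∀ c ∈ vis e h B, c % 2 = e := by
  induction B with
  | nil => intro h c hc; simp [vis] at hc
  | cons r B ih =>
    intro h c hc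
    rw [vis] at hc
    by_cases h1 : h ≤ r
    · rw [if_pos h1, Finset.mem_union] at hc
      rcases hc with hc | hc
      · by_cases h3 : r % 2 = e ∧ r + 1 < top 0 B
        · rw [if_pos h3, Finset.mem_singleton] at hc
          rw [hc]; exact h3.1
        · rw [if_neg h3] at hc
          simp at hc
      · exact ih _ c hc
    · rw [if_neg h1] at hc
      exact ih _ c hc

theorem vis_lt (hT : T_TOP) (e : ℕ) (B : List ℕ) : ∀ h : ℕ, ∀ c ∈ vis e h B, c + 1 < top 0 B := by
  induction B with
  | nil => intro h c hc; simp [vis] at hc
  | cons r B ih =>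
    intro h c hc
    have htop : top 0 (r :: B) = max (max 0 (r + 1)) (top 0 B) := by
      rw [top]; exact hT.1 _ _
    have hle : top 0 B ≤ top 0 (r :: B) := by rw [htop]; exact le_max_right _ _
    rw [vis] at hc
    by_cases h1 : h ≤ r
    · rw [if_pos h1, Finset.mem_union] at hc
      rcases hc with hc | hc
      · by_cases h3 : r % 2 = e ∧ r + 1 < top 0 B
        · rw [if_pos h3, Finset.mem_singleton] at hc
          rw [hc]; exact lt_of_lt_of_le h3.2 hle
        · rw [if_neg h3] at hc
          simp at hc
      · exact lt_of_lt_of_le (ih _ c hc) hle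
    · rw [if_neg h1] at hc
      exact lt_of_lt_of_le (ih _ c hc) hle

theorem pops_max (hT : T_TOP) (e h : ℕ) (st : List (List ℕ)) : ∀ k : ℕ,
    pops e (max h k) st = (pops e k st).filter (fun c => h ≤ c) := by
  induction st with
  | nil => intro k; simp [pops]
  | cons B Bs ih =>
    intro k
    have h1 : top (max h k) B = max h (top k B) := by
      rw [hT.1 (max h k) B, hT.1 k B, max_assoc]
    rw [pops, pops, h1, ih (top k B), vis_max, Finset.filter_union]

theorem pf_PO (h1 : T_TOP) : T_PO := by
  intro e h st
  refine ⟨?_, ?_, ?_⟩
  · have := pops_max h1 e h st 0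
    rwa [max_eq_left (Nat.zero_le h)] at this
  · have key : ∀ (st : List (List ℕ)) (h : ℕ), ∀ c ∈ pops e h st, c % 2 = e := by
      intro st
      induction st with
      | nil => intro h c hc; simp [pops] at hc
      | cons B Bs ih =>
        intro h c hc
        rw [pops, Finset.mem_union] at hc
        rcases hc with hc | hc
        · exact vis_par e B h c hc
        · exact ih _ c hc
    exact key st h
  · have key : ∀ (st : List (List ℕ)) (h : ℕ), ∀ c ∈ pops e h st, c + 1 < tops st := by
      intro st
      induction st with
      | nil => intro h c hc; simp [pops] at hc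
      | cons B Bs ih =>
        intro h c hc
        have ht : tops (B :: Bs) = max (top 0 B) (tops Bs) := by
          unfold tops
          rw [List.map_cons, List.foldr_cons]
        rw [pops, Finset.mem_union] at hc
        rw [ht]
        rcases hc with hc | hc
        · exact lt_of_lt_of_le (vis_lt h1 e B h c hc) (le_max_left _ _)
        · exact lt_of_lt_of_le (ih _ c hc) (le_max_right _ _)
    exact key st 0

end Pool.Agent.H63.STK
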