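import Pool.Agent.H47.ST.Targets

/-!
# MP_78620a_co: the stack sort operator permutes the letters (row PRM)
-/

set_option autoImplicit false

namespace Pool.Agent.H63.STK

open Finset Pool.Agent.H47.ST

theorem split_at {w : List ℕ} {m : ℕ} (h : m ∈ w) :
    w = w.takeWhile (fun x => decide (x ≠ m)) ++
      m :: (w.dropWhile (fun x => decide (x ≠ m))).tail := by
  induction w with
  | nil => simp at h
  | cons a w ih =>
    by_cases ha : a = m
    · subst ha
      simp
    · have hm : m ∈ w := by
        rcases List.mem_cons.1 h with h | h
        · exact absurd h.symm ha
        · exact h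
      have := ih hm
      rw [List.takeWhile_cons_of_pos (by simpa using ha),
        List.dropWhile_cons_of_pos (by simpa using ha), List.cons_append, ← this]

theorem pf_PRM : T_PERM := by
  intro w
  induction hn : w.length using Nat.strong_induction_on generalizing w with
  | _ n ih =>
    rw [S]
    split
    · next h => rw [h]
    · next h =>
      have hm := mx_mem h
      have h1 := ih _ (by rw [← hn]; exact length_takeWhile_lt hm)
        (w.takeWhile (fun x => decide (x ≠ mx w))) rfl
      have h2 := ih _ (by rw [← hn]; exact length_tail_dropWhile_lt w (mx w) h)
        ((w.dropWhile (fun x => decide (x ≠ mx w))).tail) rfl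
      have h3 := split_at hm
      have h4 : (S (w.takeWhile (fun x => decide (x ≠ mx w))) ++
          S ((w.dropWhile (fun x => decide (x ≠ mx w))).tail) ++ [mx w]).Perm
          (w.takeWhile (fun x => decide (x ≠ mx w)) ++
            mx w :: (w.dropWhile (fun x => decide (x ≠ mx w))).tail) := by
        rw [List.append_assoc]
        refine h1.append ?_
        exact (h2.append_right [mx w]).trans List.perm_append_comm
      exact h4.trans (List.Perm.of_eq h3.symm)

end Pool.Agent.H63.STK
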